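import Mathlib

set_option autoImplicit false

namespace Pool.Agent.Results.MP_a6ecd6_co.Cex

def Latin {d n : ℕ} (Q : (Fin d → Fin n) → Fin n) : Prop :=
  ∀ (x : Fin d → Fin n) (i : Fin d), Function.Bijective fun a => Q (Function.update x i a)

def Multiplex {d n : ℕ} (Q : (Fin d → Fin n) → Fin n) (k : ℕ) (K : Multiset (Fin d → Fin n)) :
    Prop :=
  K.card = k * n ∧ (∀ i a, K.countP (fun x => x i = a) = k) ∧ ∀ s, K.countP (fun x => Q x = s) = k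

def L : Fin 6 → Fin 6 → Fin 6 :=
  ![![5, 0, 4, 2, 3, 1], ![4, 1, 3, 5, 2, 0], ![3, 4, 5, 1, 0, 2], ![0, 5, 2, 4, 1, 3],
    ![1, 2, 0, 3, 5, 4], ![2, 3, 1, 0, 4, 5]]

def Q0 (x : Fin 2 → Fin 6) : Fin 6 := L (x 0) (x 1)

def K0 : List (Fin 6 × Fin 6) :=
  [(0, 5), (0, 5), (0, 5), (0, 5), (0, 5), (1, 3), (1, 3), (1, 4), (1, 4), (1, 4), (2, 0), (2, 0),
   (2, 1), (2, 2), (2, 2), (3, 0), (3, 0), (3, 3), (3, 3), (3, 3), (4, 1), (4, 2), (4, 2), (4, 2),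
   (4, 4), (5, 0), (5, 1), (5, 1), (5, 1), (5, 4)]

def ok (i a j b : Fin 6) : Bool := a != b && L i a != L j b

lemma notr : ∀ a b : Fin 6, ok 0 a 1 b → ∀ c, (ok 0 a 2 c && ok 1 b 2 c) →
    ∀ d, (ok 0 a 3 d && ok 1 b 3 d && ok 2 c 3 d) →
    ∀ e, (ok 0 a 4 e && ok 1 b 4 e && ok 2 c 4 e && ok 3 d 4 e) →
    ∀ f, ¬ (ok 0 a 5 f && ok 1 b 5 f && ok 2 c 5 f && ok 3 d 5 f && ok 4 e 5 f) := by
  decide +kernel

lemma compl (S : Finset (Fin 2 → Fin 6)) (p : (Fin 2 → Fin 6) → Prop) [DecidablePred p]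
    (h : (Finset.univ.filter p).card = 6) (h' : S.1.countP p = 5) : ∃! x, x ∉ S ∧ p x := by
  have h1 : (S.filter p).card = 5 := by rw [← h', Multiset.countP_eq_card_filter]; rfl
  have h2 : (Finset.univ.filter p \ S.filter p).card = 1 := by
    rw [Finset.card_sdiff_of_subset (Finset.filter_subset_filter _ S.subset_univ), h, h1]
  obtain ⟨x, hx⟩ := Finset.card_eq_one.1 h2
  have h3 : ∀ y, y ∉ S ∧ p y ↔ y = x := fun y => by
    rw [← Finset.mem_singleton, ← hx]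
    simp only [Finset.mem_sdiff, Finset.mem_filter, Finset.mem_univ, true_and]
    tauto
  exact ⟨x, (h3 x).2 rfl, fun y hy => (h3 y).1 hy⟩

theorem result : ∃ (d n k : ℕ) (Q : (Fin d → Fin n) → Fin n),
    2 ≤ d ∧ 1 ≤ n ∧ 1 ≤ k ∧ k ≤ n ^ (d - 1) ∧ Latin Q ∧ (∃ K, Multiplex Q k K) ∧
    ¬ ∃ K, Multiplex Q k K ∧ K.Nodup := by
  refine ⟨2, 6, 5, Q0, le_rfl, by norm_num, by norm_num, by norm_num, fun x i => ?_,
    ⟨((K0.map fun c => ![c.1, c.2] : List (Fin 2 → Fin 6)) : Multiset _), by decide +kernel,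
      by decide +kernel, by decide +kernel⟩, ?_⟩
  · have h1 : ∀ b, Function.Bijective fun a => L a b := by decide +kernel
    have h2 : ∀ a, Function.Bijective fun b => L a b := by decide +kernel
    fin_cases i
    · simpa [Q0] using h1 (x 1)
    · simpa [Q0] using h2 (x 0)
  · rintro ⟨K, ⟨-, h1, h2⟩, hK⟩
    let S : Finset (Fin 2 → Fin 6) := ⟨K, hK⟩
    have c1 : ∀ (i : Fin 2) (a : Fin 6),
        (Finset.univ.filter fun x : Fin 2 → Fin 6 => x i = a).card = 6 := by decide +kernel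
    have c2 : ∀ s, (Finset.univ.filter fun x : Fin 2 → Fin 6 => Q0 x = s).card = 6 := by
      decide +kernel
    choose x hx using fun a => (compl S _ (c1 0 a) (h1 0 a)).exists
    have u1 : ∀ a b, a ≠ b → x a 1 ≠ x b 1 := fun a b hab e => hab (by
      have := (compl S _ (c1 1 (x b 1)) (h1 1 _)).unique ⟨(hx a).1, e⟩ ⟨(hx b).1, rfl⟩
      rw [← (hx a).2, this, (hx b).2])
    have u2 : ∀ a b, a ≠ b → L a (x a 1) ≠ L b (x b 1) := fun a b hab e => hab (by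
      have e' : Q0 (x a) = Q0 (x b) := by simp only [Q0, (hx a).2, (hx b).2, e]
      have := (compl S _ (c2 (Q0 (x b))) (h2 _)).unique ⟨(hx a).1, e'⟩ ⟨(hx b).1, rfl⟩
      rw [← (hx a).2, this, (hx b).2])
    have u : ∀ a b, a ≠ b → ok a (x a 1) b (x b 1) = true := fun a b hab => by
      simp [ok, u1 a b hab, u2 a b hab]
    refine notr (x 0 1) (x 1 1) ?_ (x 2 1) ?_ (x 3 1) ?_ (x 4 1) ?_ (x 5 1) ?_ <;>
      simp (disch := decide) only [u, Bool.and_self]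

end Pool.Agent.Results.MP_a6ecd6_co.Cex
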